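import Pool.Agent.W788.NV.Stm

/-! Project NV, part CHB: total variation and variances -/

set_option autoImplicit false

namespace Pool.Agent.W692.NV

open Finset Pool.Agent.W788.NV

theorem vr_eq {S : Type} [Fintype S] (μ f : S → ℝ) (h : ∑ x, μ x = 1) :
    vr μ f = ∑ x, μ x * (f x - mean μ f) ^ 2 := by
  have h1 : ∑ x, μ x * (f x - mean μ f) ^ 2 = ∑ x, (μ x * f x ^ 2 - 2 * mean μ f * (μ x * f x) +
      (mean μ f) ^ 2 * μ x) := Finset.sum_congr rfl (fun x _ => by ring)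
  rw [h1, Finset.sum_add_distrib, Finset.sum_sub_distrib, ← Finset.mul_sum, ← Finset.mul_sum, h]
  have h2 : ∑ x, μ x * f x = mean μ f := rfl
  have h3 : ∑ x, μ x * f x ^ 2 = mean μ (fun x => f x ^ 2) := rfl
  rw [h2, h3]
  unfold vr
  ring

theorem chb_ : S_CHB := by
  intro S _ μ ν f hμ hν
  set a := mean μ f with ha
  set b := mean ν f with hb
  have hμ0 : ∀ x, 0 ≤ μ x := hμ.1
  have hν0 : ∀ x, 0 ≤ ν x := hν.1
  have hμ1 : ∑ x, μ x = 1 := hμ.2
  have hν1 : ∑ x, ν x = 1 := hν.2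
  have h1 : 1 - tv μ ν = ∑ x, min (μ x) (ν x) := by
    have h2 : ∑ x, min (μ x) (ν x) = ∑ x, (1 / 2 * μ x + 1 / 2 * ν x - 1 / 2 * |μ x - ν x|) := by
      apply Finset.sum_congr rfl
      intro x _
      rcases le_total (μ x) (ν x) with h | h
      · rw [min_eq_left h, abs_of_nonpos (by linarith)]; ring
      · rw [min_eq_right h, abs_of_nonneg (by linarith)]; ring
    rw [h2, Finset.sum_sub_distrib, Finset.sum_add_distrib, ← Finset.mul_sum, ← Finset.mul_sum,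
      ← Finset.mul_sum, hμ1, hν1]
    unfold tv
    ring
  rw [h1, Finset.sum_mul]
  have hv1 : vr μ f = ∑ x, μ x * (f x - a) ^ 2 := vr_eq μ f hμ1
  have hv2 : vr ν f = ∑ x, ν x * (f x - b) ^ 2 := vr_eq ν f hν1
  rw [hv1, hv2, ← Finset.sum_add_distrib, Finset.mul_sum]
  apply Finset.sum_le_sum
  intro x _
  have h3 : (a - b) ^ 2 ≤ 2 * (f x - b) ^ 2 + 2 * (f x - a) ^ 2 := by
    nlinarith [sq_nonneg ((f x - b) + (f x - a))]
  have h4 : 0 ≤ min (μ x) (ν x) := le_min (hμ0 x) (hν0 x)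
  have h5 : min (μ x) (ν x) * (f x - b) ^ 2 ≤ ν x * (f x - b) ^ 2 :=
    mul_le_mul_of_nonneg_right (min_le_right _ _) (sq_nonneg _)
  have h6 : min (μ x) (ν x) * (f x - a) ^ 2 ≤ μ x * (f x - a) ^ 2 :=
    mul_le_mul_of_nonneg_right (min_le_left _ _) (sq_nonneg _)
  have h7 := mul_le_mul_of_nonneg_left h3 h4
  linarith

end Pool.Agent.W692.NV
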